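import Pool.Agent.N309.PD.Cone

/-!
# Zero `L²`-Betti numbers and the Euler characteristic: groups acting on ordered sets with essentially
acyclic halves

Let a group `G` act on a totally ordered set `X` by order-preserving maps and without bounded orbits:
for all `x`, `y` there is a `g` with `x < g y`. Examples: `X = ℝ` with the translations by a nonzero
character, or by any action on the line without bounded orbits, and `X = G` for a left-ordered group.
Let `D` be a free resolution of the trivial module, finitely generated up to a degree, for instance the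
cellular chain complex of the universal cover of an aspherical manifold, and give each basis element a
height in `X`. Call `D` essentially acyclic in degree `k` if for each `t` there is an `s` such that all
boundaries of degree `k` which are in the part `C_{≥ s}` of height at least `s` are boundaries of chains
in `C_{≥ t}`.

We show that the `L²`-Betti numbers vanish up to degree `K`, if `D` is essentially acyclic in the
degrees `< K`. So for an aspherical closed `n`-manifold with this property, `K ≥ (n - 1) / 2`, all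
`L²`-Betti numbers outside the middle dimension vanish, and all of them vanish if and only if the Euler
characteristic is zero.

Proof. By induction there are matrices `Φ` over the group algebra, whose terms raise the heights beyond
a given bound, and homotopies `1 - Φ = S D + D S'` in the degrees up to `K`. By the level inequality of
the starting library `N309/LO/Level` the operator of `1 - Φ` on the square-summable functions has a
kernel of dimension zero. It maps the cocycles to the closure of the coboundaries, and so there is no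
square-summable harmonic cochain. For characters the result is known (Novikov homology).
-/

set_option autoImplicit false

open scoped Matrix

universe u v

namespace Pool.Agent.Results.MP_394d50_gt.EssentiallyAcyclicHalves

/-- The matrices of a complex of finitely generated free left modules over the complex group algebra
of `G`: the module in degree `i` consists of the row vectors with `r i` entries, and the boundary
operator from degree `i + 1` to degree `i` is the right multiplication by the matrix `D i`. -/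
abbrev Matrices (G : Type u) [Group G] (r : ℕ → ℕ) :=
  ∀ i, Matrix (Fin (r (i + 1))) (Fin (r i)) (MonoidAlgebra ℂ G)

/-- The complex is exact in degree `i + 1`. -/
def IsExactAt {G : Type u} [Group G] {r : ℕ → ℕ} (D : Matrices G r) (i : ℕ) : Prop :=
  ∀ x : Fin (r (i + 1)) → MonoidAlgebra ℂ G, x ᵥ* D i = 0 → ∃ y, y ᵥ* D (i + 1) = x

/-- `G` acts trivially on the homology in degree `0`: the translates `g e_j` and `h e_j` of a basis
element differ by a boundary. -/
def TrivialOnHZero {G : Type u} [Group G] {r : ℕ → ℕ} (D : Matrices G r) : Prop :=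
  ∀ (g h : G) (j : Fin (r 0)), ∃ y, y ᵥ* D 0 =
    Pi.single j (MonoidAlgebra.single g 1 - MonoidAlgebra.single h 1)

/-- The value at `g` of the convolution `α * f`. -/
noncomputable def conv {G : Type u} [Group G] (α : MonoidAlgebra ℂ G) (f : G → ℂ) (g : G) : ℂ :=
  ∑ k ∈ α.coeff.support, α.coeff k * f (k⁻¹ * g)

/-- The value at `g` of the convolution `α* * f` with the adjoint of `α`. -/
noncomputable def coconv {G : Type u} [Group G] (α : MonoidAlgebra ℂ G) (f : G → ℂ) (g : G) : ℂ :=
  ∑ k ∈ α.coeff.support, (starRingEnd ℂ) (α.coeff k) * f (k * g)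

/-- The square-summable functions on `G × {1, …, k}`. -/
noncomputable abbrev L2 (G : Type u) (k : ℕ) := lp (fun _ : G × Fin k => ℂ) 2

/-- `F` is mapped to zero by the coboundary operator, the matrix `A` acting by convolution. -/
def IsCocycle {G : Type u} [Group G] {k l : ℕ} (A : Matrix (Fin l) (Fin k) (MonoidAlgebra ℂ G))
    (F : L2 G k) : Prop :=
  ∀ i g, ∑ j, conv (A i j) (fun x => F (x, j)) g = 0

/-- `F` is mapped to zero by the boundary operator, the adjoint of the matrix `A`. -/
def IsCycle {G : Type u} [Group G] {k l : ℕ} (A : Matrix (Fin l) (Fin k) (MonoidAlgebra ℂ G))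
    (F : L2 G l) : Prop :=
  ∀ j g, ∑ i, coconv (A i j) (fun x => F (x, i)) g = 0

/-- The square-summable harmonic cochains in degree `i`: the square-summable functions on
`G × Fin (r i)` in the kernels of the coboundary operator (the matrix `D i`, acting by convolution)
and, if `i` is positive, of the boundary operator (the adjoint of the matrix `D (i - 1)`). They
represent the reduced `ℓ²`-cohomology. -/
noncomputable def harmonic {G : Type u} [Group G] {r : ℕ → ℕ} (D : Matrices G r) :
    (i : ℕ) → Set (L2 G (r i))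
  | 0 => {F | IsCocycle (D 0) F}
  | (i + 1) => {F | IsCocycle (D (i + 1)) F ∧ IsCycle (D i) F}

open Classical in
/-- The `i`-th `L²`-Betti number: the von Neumann dimension of the space of harmonic cochains, that
is, the sum over the basis of one minus the squared distance of the basis vector (at the identity of
`G`) to this space. -/
noncomputable def betti {G : Type u} [Group G] {r : ℕ → ℕ} (D : Matrices G r) (i : ℕ) : ℝ :=
  ∑ j : Fin (r i), (1 - Metric.infDist
    (lp.single 2 ((1 : G), j) (1 : ℂ) : L2 G (r i)) (harmonic D i) ^ 2)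

/-- `G` acts on the totally ordered set `X` by order-preserving maps. -/
def OrderPreserving (G : Type u) (X : Type v) [Group G] [MulAction G X] [LinearOrder X] : Prop :=
  ∀ (g : G) (a b : X), a ≤ b → g • a ≤ g • b

/-- The chain `x` is in `C_{≥ t}`: its terms `h e_j` have height `h • w j ≥ t`. -/
def HeightGE {G : Type u} [Group G] {X : Type v} [MulAction G X] [LinearOrder X] {m : ℕ}
    (w : Fin m → X) (t : X) (x : Fin m → MonoidAlgebra ℂ G) : Prop :=
  ∀ j h, (x j).coeff h ≠ 0 → t ≤ h • w j

/-- The complex is essentially acyclic in degree `k` for the heights `w`: for each `t` there is an `s`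
such that the boundaries of degree `k` in `C_{≥ s}` are boundaries of chains in `C_{≥ t}`. -/
def EssentiallyAcyclic {G : Type u} [Group G] {X : Type v} [MulAction G X] [LinearOrder X]
    {r : ℕ → ℕ} (D : Matrices G r) (w : (i : ℕ) → Fin (r i) → X) (k : ℕ) : Prop :=
  ∀ t : X, ∃ s : X, ∀ x, HeightGE (w k) s (x ᵥ* D k) →
    ∃ y, HeightGE (w (k + 1)) t y ∧ y ᵥ* D k = x ᵥ* D k

/-- The Euler characteristic of a complex of length `n`. -/
def chi (r : ℕ → ℕ) (n : ℕ) : ℝ := ∑ i ∈ Finset.range (n + 1), (-1) ^ i * (r i : ℝ)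

section proofs
open Pool.Agent.W649.ZL Pool.Agent.N309.LO Pool.Agent.N309.PD

variable {G : Type u} [Group G]

theorem opM_apply {a b : ℕ} (A : Matrix (Fin a) (Fin b) (MonoidAlgebra ℂ G)) (F : EE G (Fin b))
    (k : Fin a) (g : G) : opM A F (g, k) = ∑ j, conv (A k j) (fun x => F (x, j)) g := by
  rw [← cmp_apply, cmp_opM]
  unfold pr
  rw [sum_apply_EE]
  refine Finset.sum_congr rfl fun j _ => ?_
  rw [Lam_apply]
  unfold conv
  refine Finset.sum_congr rfl fun x _ => ?_
  rw [cmp_apply]

theorem Lam_sig_apply (α : MonoidAlgebra ℂ G) (f : EE G Unit) (g : G) :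
    Lam (sig α) f (g, ()) = coconv α (fun x => f (x, ())) g := by
  rw [Lam_apply]
  unfold coconv
  apply Finset.sum_nbij' (fun k => k⁻¹) (fun k => k⁻¹)
  · intro k hk
    rw [Finsupp.mem_support_iff] at hk ⊢
    rw [sig_coeff] at hk
    intro h
    exact hk (by rw [h, map_zero])
  · intro k hk
    rw [Finsupp.mem_support_iff] at hk ⊢
    rw [sig_coeff, inv_inv]
    intro h
    exact hk ((map_eq_zero _).1 h)
  · intro k _
    exact inv_inv k
  · intro k _
    exact inv_inv k
  · intro k _
    rw [sig_coeff]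

theorem opM_adj_apply {a b : ℕ} (A : Matrix (Fin a) (Fin b) (MonoidAlgebra ℂ G))
    (F : EE G (Fin a)) (j : Fin b) (g : G) :
    opM (adjM A) F (g, j) = ∑ k, coconv (A k j) (fun x => F (x, k)) g := by
  rw [← cmp_apply, cmp_opM]
  unfold pr
  rw [sum_apply_EE]
  refine Finset.sum_congr rfl fun k _ => ?_
  change Lam (sig (A k j)) (cmp k F) (g, ()) = _
  rw [Lam_sig_apply]
  congr 1
  funext x
  rw [cmp_apply]

theorem ker_iff {a b : ℕ} (A : Matrix (Fin a) (Fin b) (MonoidAlgebra ℂ G)) (F : EE G (Fin b)) :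
    (∀ k g, ∑ j, conv (A k j) (fun x => F (x, j)) g = 0) ↔ opM A F = 0 := by
  constructor
  · intro h
    ext ⟨g, k⟩
    rw [opM_apply, h]
    rfl
  · intro h k g
    rw [← opM_apply, h]
    rfl

theorem coker_iff {a b : ℕ} (A : Matrix (Fin a) (Fin b) (MonoidAlgebra ℂ G)) (F : EE G (Fin a)) :
    (∀ j g, ∑ k, coconv (A k j) (fun x => F (x, k)) g = 0) ↔ opM (adjM A) F = 0 := by
  constructor
  · intro h
    ext ⟨g, j⟩
    rw [opM_adj_apply, h]
    rfl
  · intro h j g
    rw [← opM_adj_apply, h]
    rfl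

theorem harmonic_zero {r : ℕ → ℕ} (D : Matrices G r) :
    harmonic D 0 = (LinearMap.ker (opM (D 0) : EE G (Fin (r 0)) →ₗ[ℂ] EE G (Fin (r 1))) :
      Set (EE G (Fin (r 0)))) := by
  ext F
  exact ker_iff (D 0) F

theorem harmonic_succ {r : ℕ → ℕ} (D : Matrices G r) (i : ℕ) :
    harmonic D (i + 1) = (harm (opM (D (i + 1))) (opM (D i)) : Set (EE G (Fin (r (i + 1))))) := by
  ext F
  have h1 := ker_iff (D (i + 1)) F
  have h2 := coker_iff (D i) F
  have h3 := ContinuousLinearMap.orthogonal_range (opM (D i))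
  rw [opM_adj] at h3
  unfold harm
  rw [h3]
  exact and_congr h1 h2

theorem betti_eq {r : ℕ → ℕ} (D : Matrices G r) (i : ℕ)
    (P : Submodule ℂ (EE G (Fin (r i)))) (hP : IsClosed (P : Set (EE G (Fin (r i)))))
    (h : harmonic D i = (P : Set (EE G (Fin (r i))))) : betti D i = vd P := by
  classical
  rw [vd_eq_infDist P hP]
  unfold betti
  rw [h]
  refine Finset.sum_congr rfl fun j _ => ?_
  have e : (lp.single 2 ((1 : G), j) (1 : ℂ) : lp (fun _ : G × Fin (r i) => ℂ) 2)
      = (dl ((1 : G), j) : EE G (Fin (r i))) := by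
    unfold dl
    congr 1
    exact Subsingleton.elim _ _
  rw [← e]

/-- the dimension of the kernel of the coboundary operator -/
noncomputable def kap {r : ℕ → ℕ} (D : Matrices G r) (i : ℕ) : ℝ :=
  vd (LinearMap.ker (opM (D i) : EE G (Fin (r i)) →ₗ[ℂ] EE G (Fin (r (i + 1)))))

theorem betti_zero {r : ℕ → ℕ} (D : Matrices G r) : betti D 0 = kap D 0 :=
  betti_eq D 0 _ (ContinuousLinearMap.isClosed_ker _) (harmonic_zero D)

theorem betti_succ {r : ℕ → ℕ} (D : Matrices G r) (hD : ∀ i, D (i + 1) * D i = 0) (i : ℕ) :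
    betti D (i + 1) = kap D (i + 1) + kap D i - r i := by
  have h0 : ∀ F, opM (D (i + 1)) (opM (D i) F) = 0 := by
    intro F
    rw [opM_eq_zero]
    intro k
    rw [pr_opM]
    have e : D (i + 1) k ᵥ* D i = 0 := by
      funext j
      exact congrFun (congrFun (hD i) k) j
    rw [e, pr_zero_left]
  rw [betti_eq D (i + 1) _ (harm_closed _ _) (harmonic_succ D i), vd_harm_eq _ _ (opM_eqv _) h0,
    Fintype.card_fin]
  rfl

theorem betti_nonneg {r : ℕ → ℕ} (D : Matrices G r) (i : ℕ) : 0 ≤ betti D i := by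
  cases i with
  | zero =>
    rw [betti_zero]
    exact vd_nonneg _
  | succ i =>
    rw [betti_eq D (i + 1) _ (harm_closed _ _) (harmonic_succ D i)]
    exact vd_nonneg _

/-- alternating sums -/
noncomputable def altSum (b : ℕ → ℝ) (n : ℕ) : ℝ :=
  ∑ i ∈ Finset.range (n + 1), (-1) ^ (n - i) * b i

/-- the correction term of the alternating sums -/
noncomputable def cor (r : ℕ → ℕ) : ℕ → ℝ
  | 0 => 0
  | (n + 1) => (r n : ℝ) - cor r n

theorem altSum_succ (b : ℕ → ℝ) (n : ℕ) : altSum b (n + 1) = b (n + 1) - altSum b n := by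
  unfold altSum
  rw [Finset.sum_range_succ _ (n + 1), Nat.sub_self, pow_zero, one_mul, add_comm, sub_eq_add_neg,
    ← Finset.sum_neg_distrib]
  congr 1
  refine Finset.sum_congr rfl fun i hi => ?_
  have h : n + 1 - i = (n - i) + 1 := by
    have := Finset.mem_range.1 hi
    omega
  rw [h, pow_succ]
  ring

theorem altSum_eq {r : ℕ → ℕ} (b κ : ℕ → ℝ) (h0 : b 0 = κ 0)
    (h : ∀ i, b (i + 1) = κ (i + 1) + κ i - r i) (n : ℕ) : altSum b n = κ n - cor r n := by
  induction n with
  | zero =>
    unfold altSum cor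
    simp [h0]
  | succ n ih =>
    rw [altSum_succ, ih, h]
    change _ = κ (n + 1) - ((r n : ℝ) - cor r n)
    ring

theorem opM_mul {a b c : ℕ} (A : Matrix (Fin a) (Fin b) (MonoidAlgebra ℂ G))
    (B : Matrix (Fin b) (Fin c) (MonoidAlgebra ℂ G)) (F : EE G (Fin c)) :
    opM (A * B) F = opM A (opM B F) := by
  apply ext_cmp
  intro i
  rw [cmp_opM, cmp_opM, pr_opM]
  rfl

theorem opM_add {a b : ℕ} (A B : Matrix (Fin a) (Fin b) (MonoidAlgebra ℂ G))
    (F : EE G (Fin b)) : opM (A + B) F = opM A F + opM B F := by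
  apply ext_cmp
  intro i
  rw [cmp_opM, map_add, cmp_opM, cmp_opM]
  exact pr_add_left (A i) (B i) F

theorem opM_one {a : ℕ} (F : EE G (Fin a)) :
    opM (1 : Matrix (Fin a) (Fin a) (MonoidAlgebra ℂ G)) F = F := by
  classical
  apply ext_cmp
  intro i
  rw [cmp_opM]
  have e : (1 : Matrix (Fin a) (Fin a) (MonoidAlgebra ℂ G)) i = Pi.single i 1 := by
    funext j
    by_cases h : j = i
    · subst h
      rw [Pi.single_eq_same, Matrix.one_apply_eq]
    · rw [Pi.single_eq_of_ne h, Matrix.one_apply_ne (Ne.symm h)]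
  rw [e, pr_single, map_one]
  rfl

theorem one_coeff {a : ℕ} (i j : Fin a) (h : G)
    (hne : ((1 : Matrix (Fin a) (Fin a) (MonoidAlgebra ℂ G)) i j).coeff h ≠ 0) : i = j ∧ h = 1 := by
  classical
  by_cases hij : i = j
  · refine ⟨hij, ?_⟩
    subst hij
    rw [Matrix.one_apply_eq, MonoidAlgebra.one_def, MonoidAlgebra.coeff_single,
      Finsupp.single_apply] at hne
    by_contra h1
    rw [if_neg (Ne.symm h1)] at hne
    exact hne rfl
  · rw [Matrix.one_apply_ne hij] at hne
    exact absurd rfl hne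

theorem msub_coeff {a b : ℕ} (A B : Matrix (Fin a) (Fin b) (MonoidAlgebra ℂ G)) (i : Fin a)
    (j : Fin b) (h : G) : ((A - B) i j).coeff h = (A i j).coeff h - (B i j).coeff h := by
  rw [Matrix.sub_apply]
  rfl

section
variable {X : Type v} [MulAction G X] [LinearOrder X]

/-- the operator of `1 - Φ` is injective -/
theorem ker_zero (hX : OrderPreserving G X) {a : ℕ} (w : Fin a → X)
    (Φ : Matrix (Fin a) (Fin a) (MonoidAlgebra ℂ G))
    (hΦ : ∀ i j h, (Φ i j).coeff h ≠ 0 → w i < h • w j) :
    vd (LinearMap.ker (opM (1 - Φ) : EE G (Fin a) →ₗ[ℂ] EE G (Fin a))) = 0 := by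
  classical
  apply le_antisymm _ (vd_nonneg _)
  have h1 : vd (LinearMap.ker (opM (1 - Φ) : EE G (Fin a) →ₗ[ℂ] EE G (Fin a)))
      ≤ vd (LinearMap.ker (opM (1 : Matrix (Fin a) (Fin a) (MonoidAlgebra ℂ G)) :
        EE G (Fin a) →ₗ[ℂ] EE G (Fin a))) := by
    apply level_le (X := X) hX w w _ _ (opM_eqv _) (opM_eqv _)
    · intro j t i hne
      rw [opM_dl, inv_one, mul_one, msub_coeff] at hne
      by_cases h0 : (Φ i j).coeff t = 0
      · rw [h0, sub_zero] at hne
        obtain ⟨rfl, rfl⟩ := one_coeff i j t hne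
        rw [one_smul]
      · exact (hΦ i j t h0).le
    · intro j t i he
      rw [opM_dl, opM_dl, inv_one, mul_one, msub_coeff]
      have h0 : (Φ i j).coeff t = 0 := by
        by_contra h0
        exact (hΦ i j t h0).ne he
      rw [h0, sub_zero]
    · intro j t i he
      rw [opM_dl, inv_one, mul_one]
      by_contra hne
      obtain ⟨rfl, rfl⟩ := one_coeff i j t hne
      exact he (one_smul _ _).symm
  refine h1.trans (le_of_eq ?_)
  apply vd_ker_of_injective
  intro F F' h
  have h' : opM (1 : Matrix (Fin a) (Fin a) (MonoidAlgebra ℂ G)) F = opM 1 F' := h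
  rwa [opM_one, opM_one] at h'

theorem betti_zero_of (hX : OrderPreserving G X) {r : ℕ → ℕ} (D : Matrices G r) (w : Fin (r 0) → X)
    (Φ : Matrix (Fin (r 0)) (Fin (r 0)) (MonoidAlgebra ℂ G))
    (S : Matrix (Fin (r 0)) (Fin (r 1)) (MonoidAlgebra ℂ G))
    (hΦ : ∀ i j h, (Φ i j).coeff h ≠ 0 → w i < h • w j) (h : 1 - Φ = S * D 0) :
    betti D 0 = 0 := by
  rw [betti_zero]
  apply le_antisymm _ (vd_nonneg _)
  rw [← ker_zero hX w Φ hΦ]
  apply vd_mono
  intro F hF
  have hF' : opM (D 0) F = 0 := hF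
  change opM (1 - Φ) F = 0
  rw [h, opM_mul, hF', map_zero]

theorem betti_succ_of (hX : OrderPreserving G X) {r : ℕ → ℕ} (D : Matrices G r)
    (hD : ∀ i, D (i + 1) * D i = 0) (k : ℕ) (w : Fin (r (k + 1)) → X)
    (Φ : Matrix (Fin (r (k + 1))) (Fin (r (k + 1))) (MonoidAlgebra ℂ G))
    (S : Matrix (Fin (r (k + 1))) (Fin (r (k + 1 + 1))) (MonoidAlgebra ℂ G))
    (S' : Matrix (Fin (r k)) (Fin (r (k + 1))) (MonoidAlgebra ℂ G))
    (hΦ : ∀ i j h, (Φ i j).coeff h ≠ 0 → w i < h • w j)
    (h : 1 - Φ = S * D (k + 1) + D k * S') : betti D (k + 1) = 0 := by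
  classical
  apply le_antisymm _ (betti_nonneg D _)
  rw [betti_succ D hD]
  have h1 := rank_nullity (opM (1 - Φ)) (opM_eqv _) (inv_ker (opM (D (k + 1))) (opM_eqv _))
    (ContinuousLinearMap.isClosed_ker (opM (D (k + 1))))
  have h2 : vd (LinearMap.ker (opM (D (k + 1)) : EE G (Fin (r (k + 1))) →ₗ[ℂ]
      EE G (Fin (r (k + 1 + 1)))) ⊓ LinearMap.ker (opM (1 - Φ) :
        EE G (Fin (r (k + 1))) →ₗ[ℂ] EE G (Fin (r (k + 1))))) ≤ 0 := by
    rw [← ker_zero hX w Φ hΦ]
    exact vd_mono inf_le_right
  have h3 : vd ((LinearMap.ker (opM (D (k + 1)) : EE G (Fin (r (k + 1))) →ₗ[ℂ]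
      EE G (Fin (r (k + 1 + 1))))).map (opM (1 - Φ) :
        EE G (Fin (r (k + 1))) →ₗ[ℂ] EE G (Fin (r (k + 1)))))
      ≤ vd (LinearMap.range (opM (D k) : EE G (Fin (r k)) →ₗ[ℂ] EE G (Fin (r (k + 1))))) := by
    apply vd_mono
    rintro _ ⟨F, hF, rfl⟩
    have hF' : opM (D (k + 1)) F = 0 := hF
    refine ⟨opM S' F, ?_⟩
    change opM (D k) (opM S' F) = opM (1 - Φ) F
    rw [h, opM_add, opM_mul, opM_mul, hF', map_zero, zero_add]
  have h4 := ker_add_range (opM (D k)) (opM_eqv _)
  rw [Fintype.card_fin] at h4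
  have h5 : kap D (k + 1) = vd (LinearMap.ker (opM (D (k + 1)) : EE G (Fin (r (k + 1))) →ₗ[ℂ]
      EE G (Fin (r (k + 1 + 1))))) := rfl
  have h6 : kap D k = vd (LinearMap.ker (opM (D k) : EE G (Fin (r k)) →ₗ[ℂ]
      EE G (Fin (r (k + 1))))) := rfl
  rw [h5, h6]
  linarith

/-- a bound for finitely many heights -/
theorem exists_bound {ι : Type*} (s : Finset ι) (f : ι → X) (x₀ : X) :
    ∃ t : X, x₀ ≤ t ∧ ∀ i ∈ s, f i ≤ t := by
  classical
  induction s using Finset.induction_on with
  | empty => exact ⟨x₀, le_refl _, fun i hi => absurd hi (Finset.notMem_empty i)⟩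
  | insert a s _ ih =>
    obtain ⟨t, ht0, ht⟩ := ih
    refine ⟨max t (f a), ht0.trans (le_max_left _ _), ?_⟩
    intro i hi
    rcases Finset.mem_insert.1 hi with rfl | hi
    · exact le_max_right _ _
    · exact (ht i hi).trans (le_max_left _ _)


theorem step_zero (hU : ∀ x y : X, ∃ g : G, x < g • y) {r : ℕ → ℕ}
    (D : Matrices G r) (w : (i : ℕ) → Fin (r i) → X) (h0 : TrivialOnHZero D) (t : X) :
    ∃ (Φ : Matrix (Fin (r 0)) (Fin (r 0)) (MonoidAlgebra ℂ G))
      (S : Matrix (Fin (r 0)) (Fin (r 1)) (MonoidAlgebra ℂ G)),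
      (∀ i, HeightGE (w 0) t (Φ i)) ∧ 1 - Φ = S * D 0 := by
  classical
  choose g hg using fun j : Fin (r 0) => hU t (w 0 j)
  choose y hy using fun j : Fin (r 0) => h0 1 (g j) j
  let Φ : Matrix (Fin (r 0)) (Fin (r 0)) (MonoidAlgebra ℂ G) :=
    fun i => Pi.single i (MonoidAlgebra.single (g i) 1)
  let S : Matrix (Fin (r 0)) (Fin (r 1)) (MonoidAlgebra ℂ G) := fun i => y i
  refine ⟨Φ, S, ?_, ?_⟩
  · intro i j h hne
    change ((Pi.single i (MonoidAlgebra.single (g i) (1 : ℂ)) :
      Fin (r 0) → MonoidAlgebra ℂ G) j).coeff h ≠ 0 at hne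
    by_cases hij : j = i
    · subst hij
      rw [Pi.single_eq_same, MonoidAlgebra.coeff_single, Finsupp.single_apply] at hne
      by_cases e : g j = h
      · rw [← e]
        exact (hg j).le
      · rw [if_neg e] at hne
        exact absurd rfl hne
    · rw [Pi.single_eq_of_ne hij] at hne
      exact absurd rfl hne
  · funext i
    have e1 : (S * D 0) i = y i ᵥ* D 0 := rfl
    rw [e1, hy i]
    funext j
    rw [Matrix.sub_apply]
    by_cases hij : j = i
    · subst hij
      rw [Matrix.one_apply_eq, Pi.single_eq_same]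
      change (1 : MonoidAlgebra ℂ G) - (Pi.single j (MonoidAlgebra.single (g j) (1 : ℂ)) :
        Fin (r 0) → MonoidAlgebra ℂ G) j = _
      rw [Pi.single_eq_same, MonoidAlgebra.one_def]
    · rw [Matrix.one_apply_ne (Ne.symm hij), Pi.single_eq_of_ne hij]
      change (0 : MonoidAlgebra ℂ G) - (Pi.single i (MonoidAlgebra.single (g i) (1 : ℂ)) :
        Fin (r 0) → MonoidAlgebra ℂ G) j = _
      rw [Pi.single_eq_of_ne hij, sub_zero]

theorem step_succ (hX : OrderPreserving G X) {r : ℕ → ℕ}
    (D : Matrices G r) (w : (i : ℕ) → Fin (r i) → X) (k : ℕ) (hex : IsExactAt D k)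
    (hac : EssentiallyAcyclic D w k)
    (ih : ∀ t : X, ∃ (Φ : Matrix (Fin (r k)) (Fin (r k)) (MonoidAlgebra ℂ G))
      (S : Matrix (Fin (r k)) (Fin (r (k + 1))) (MonoidAlgebra ℂ G)),
      (∀ i, HeightGE (w k) t (Φ i)) ∧ D k * Φ = D k - D k * S * D k) (t : X) :
    ∃ (Φ : Matrix (Fin (r (k + 1))) (Fin (r (k + 1))) (MonoidAlgebra ℂ G))
      (S : Matrix (Fin (r (k + 1))) (Fin (r (k + 1 + 1))) (MonoidAlgebra ℂ G))
      (S' : Matrix (Fin (r k)) (Fin (r (k + 1))) (MonoidAlgebra ℂ G)),
      (∀ i, HeightGE (w (k + 1)) t (Φ i)) ∧ 1 - Φ = S * D (k + 1) + D k * S' := by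
  classical
  obtain ⟨s, hs⟩ := hac t
  -- the bound for the heights of `Φ`
  let T : Finset G := Finset.univ.biUnion fun l : Fin (r (k + 1)) =>
    Finset.univ.biUnion fun j : Fin (r k) => (D k l j).coeff.support
  obtain ⟨t', _, ht'⟩ := exists_bound T (fun h => h⁻¹ • s) s
  obtain ⟨Φ, S, hΦ, hΦS⟩ := ih t'
  have hheight : ∀ l, HeightGE (w k) s ((D k * Φ) l) := by
    intro l j g hne
    rw [Matrix.mul_apply, MonoidAlgebra.coeff_sum, Finsupp.finsetSum_apply] at hne
    obtain ⟨m, _, hm⟩ := Finset.exists_ne_zero_of_sum_ne_zero hne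
    rw [MonoidAlgebra.coeff_mul_apply_left] at hm
    obtain ⟨h, hh, hm2⟩ := Finset.exists_ne_zero_of_sum_ne_zero hm
    have h1 : (Φ m j).coeff (h⁻¹ * g) ≠ 0 := right_ne_zero_of_mul hm2
    have h2 := hΦ m j _ h1
    have h3 : h⁻¹ • s ≤ t' := ht' h (Finset.mem_biUnion.2 ⟨l, Finset.mem_univ _,
      Finset.mem_biUnion.2 ⟨m, Finset.mem_univ _, hh⟩⟩)
    have h4 := hX h _ _ (h3.trans h2)
    rwa [smul_inv_smul, smul_smul, mul_inv_cancel_left] at h4
  let P : Matrix (Fin (r (k + 1))) (Fin (r (k + 1))) (MonoidAlgebra ℂ G) := 1 - D k * S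
  have hP : D k * Φ = P * D k := by
    rw [hΦS, Matrix.sub_mul, Matrix.one_mul]
  have hrow : ∀ l, (D k * Φ) l = P l ᵥ* D k := by
    intro l
    rw [hP]
    rfl
  choose y hy1 hy2 using fun l => hs (P l) (by rw [← hrow l]; exact hheight l)
  let Φ' : Matrix (Fin (r (k + 1))) (Fin (r (k + 1))) (MonoidAlgebra ℂ G) := fun l => y l
  have hΦ' : Φ' * D k = P * D k := by
    funext l
    exact hy2 l
  let Q : Matrix (Fin (r (k + 1))) (Fin (r (k + 1))) (MonoidAlgebra ℂ G) := P - Φ'
  have hz : ∀ l, Q l ᵥ* D k = 0 := by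
    intro l
    have e : Q * D k = 0 := by
      change (P - Φ') * D k = 0
      rw [Matrix.sub_mul, hΦ', sub_self]
    exact congrFun e l
  choose S'' hS'' using fun l => hex _ (hz l)
  let R : Matrix (Fin (r (k + 1))) (Fin (r (k + 1 + 1))) (MonoidAlgebra ℂ G) := fun l => S'' l
  refine ⟨Φ', R, S, fun l => hy1 l, ?_⟩
  have h5 : R * D (k + 1) = 1 - D k * S - Φ' := by
    funext l
    exact hS'' l
  rw [h5]
  abel

/-- strictly raising matrices -/
theorem raise_of_ge (hU : ∀ x y : X, ∃ g : G, x < g • y) {a : ℕ} (ha : 0 < a) (w : Fin a → X) :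
    ∃ t : X, ∀ i, w i < t := by
  obtain ⟨t, _, ht⟩ := exists_bound Finset.univ w (w ⟨0, ha⟩)
  obtain ⟨g, hg⟩ := hU t t
  exact ⟨g • t, fun i => (ht i (Finset.mem_univ i)).trans_lt hg⟩

theorem main (hX : OrderPreserving G X) (hU : ∀ x y : X, ∃ g : G, x < g • y) {r : ℕ → ℕ}
    (D : Matrices G r) (hD : ∀ i, D (i + 1) * D i = 0) (w : (i : ℕ) → Fin (r i) → X)
    (h0 : TrivialOnHZero D) (K : ℕ) (hex : ∀ k, k < K → IsExactAt D k)
    (hac : ∀ k, k < K → EssentiallyAcyclic D w k) :
    ∀ k, k ≤ K → betti D k = 0 ∧ ∀ t : X, ∃ (Φ : Matrix (Fin (r k)) (Fin (r k)) (MonoidAlgebra ℂ G))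
      (S : Matrix (Fin (r k)) (Fin (r (k + 1))) (MonoidAlgebra ℂ G)),
      (∀ i, HeightGE (w k) t (Φ i)) ∧ D k * Φ = D k - D k * S * D k := by
  intro k
  induction k with
  | zero =>
    intro _
    refine ⟨?_, ?_⟩
    · rcases Nat.eq_zero_or_pos (r 0) with hr | hr
      · unfold betti
        apply Finset.sum_eq_zero
        intro j _
        have := j.2
        omega
      · obtain ⟨t, ht⟩ := raise_of_ge hU hr (w 0)
        obtain ⟨Φ, S, hΦ, h⟩ := step_zero hU D w h0 t
        exact betti_zero_of hX D (w 0) Φ S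
          (fun i j g hne => (ht i).trans_le (hΦ i j g hne)) h
    · intro t
      obtain ⟨Φ, S, hΦ, h⟩ := step_zero hU D w h0 t
      refine ⟨Φ, S, hΦ, ?_⟩
      have h1 : Φ = 1 - S * D 0 := by
        rw [← h]
        abel
      rw [h1, Matrix.mul_sub, Matrix.mul_one, Matrix.mul_assoc]
  | succ k ih =>
    intro hk
    have ih' := (ih (by omega)).2
    have hstep := step_succ hX D w k (hex k (by omega)) (hac k (by omega)) ih'
    refine ⟨?_, ?_⟩
    · rcases Nat.eq_zero_or_pos (r (k + 1)) with hr | hr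
      · unfold betti
        apply Finset.sum_eq_zero
        intro j _
        have := j.2
        omega
      · obtain ⟨t, ht⟩ := raise_of_ge hU hr (w (k + 1))
        obtain ⟨Φ, S, S', hΦ, h⟩ := hstep t
        exact betti_succ_of hX D hD k (w (k + 1)) Φ S S'
          (fun i j g hne => (ht i).trans_le (hΦ i j g hne)) h
    · intro t
      obtain ⟨Φ, S, S', hΦ, h⟩ := hstep t
      refine ⟨Φ, S, hΦ, ?_⟩
      have h1 : Φ = 1 - (S * D (k + 1) + D k * S') := by
        rw [← h]
        abel
      rw [h1, Matrix.mul_sub, Matrix.mul_one, Matrix.mul_add, ← Matrix.mul_assoc,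
        ← Matrix.mul_assoc, hD k, Matrix.zero_mul, add_zero]

end

theorem euler {r : ℕ → ℕ} (D : Matrices G r) (hD : ∀ i, D (i + 1) * D i = 0) (n : ℕ)
    (hn : r (n + 1) = 0) : altSum (betti D) n = altSum (fun i => (r i : ℝ)) n := by
  classical
  have hkn : kap D n = r n := by
    have h1 := ker_add_range (opM (D n)) (opM_eqv _)
    have h2 : vd (LinearMap.range (opM (D n) : EE G (Fin (r n)) →ₗ[ℂ] EE G (Fin (r (n + 1)))))
        = 0 := by
      have h3 : LinearMap.range (opM (D n) : EE G (Fin (r n)) →ₗ[ℂ] EE G (Fin (r (n + 1)))) = ⊥ := by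
        rw [eq_bot_iff]
        rintro _ ⟨F, rfl⟩
        rw [Submodule.mem_bot]
        have he : IsEmpty (Fin (r (n + 1))) := by
          rw [hn]
          infer_instance
        ext ⟨x, k⟩
        exact he.elim k
      rw [h3, vd_bot]
    rw [h2, add_zero, Fintype.card_fin] at h1
    exact h1
  have h1 := altSum_eq (r := r) _ (kap D) (betti_zero D) (betti_succ D hD) n
  rw [hkn] at h1
  have h2 : ∀ k, (r k : ℝ) - cor r k = altSum (fun i => (r i : ℝ)) k := by
    intro k
    induction k with
    | zero =>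
      unfold altSum cor
      simp
    | succ k ih =>
      rw [altSum_succ, ← ih]
      rfl
  rw [h2] at h1
  exact h1

theorem altSum_sign (b : ℕ → ℝ) (n : ℕ) :
    altSum b n = (-1) ^ n * ∑ i ∈ Finset.range (n + 1), (-1) ^ i * b i := by
  unfold altSum
  rw [Finset.mul_sum]
  refine Finset.sum_congr rfl fun i hi => ?_
  have h7 := Finset.mem_range.1 hi
  have h8 : (-1 : ℝ) ^ (n - i) * (-1) ^ i = (-1) ^ n := by
    rw [← pow_add, Nat.sub_add_cancel (by omega)]
  have h9 : (-1 : ℝ) ^ i * (-1) ^ i = 1 := by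
    rw [← mul_pow]
    norm_num
  calc (-1 : ℝ) ^ (n - i) * b i = (-1) ^ (n - i) * ((-1) ^ i * (-1) ^ i) * b i := by
        rw [h9, mul_one]
    _ = ((-1) ^ (n - i) * (-1) ^ i) * ((-1) ^ i * b i) := by ring
    _ = _ := by rw [h8]

end proofs

/-- **Zero `L²`-Betti numbers and the Euler characteristic.** Let `G` act on the totally ordered set `X`
by order-preserving maps, let `D` be a complex of finitely generated free modules over the complex
group algebra and let `w` be heights in `X` for the basis elements.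

1. If for some matrix `Φ`, whose terms strictly raise the heights, the identity minus `Φ` is zero
homotopic in degree `k + 1`, `1 - Φ = S D_(k+1) + D_k S'`, then `b_(k+1) = 0`.
2. Let `G` act on `X` without bounded orbits and trivially on the homology of `D` in degree `0`, and
let `D` be exact in the degrees `1, …, K` and essentially acyclic in the degrees `0, …, K - 1`. Then
`b_k = 0` for all `k ≤ K`. If moreover `D` has length `n ≤ 2 K + 1` and `b_i = b_(n-i)` (Poincaré
duality), then `b_i = 0` for all `i ≠ n / 2`; for `n = 2 m` the number `b_m` is the integer `(-1)^m χ`;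
and all `b_i` are zero if and only if the Euler characteristic `χ` of `D` is zero. -/
theorem result (G : Type u) [Group G] (X : Type v) [MulAction G X] [LinearOrder X]
    (hX : OrderPreserving G X) (r : ℕ → ℕ) (D : Matrices G r) (hD : ∀ i, D (i + 1) * D i = 0)
    (w : (i : ℕ) → Fin (r i) → X) :
    (∀ (k : ℕ) (Φ : Matrix (Fin (r (k + 1))) (Fin (r (k + 1))) (MonoidAlgebra ℂ G))
      (S : Matrix (Fin (r (k + 1))) (Fin (r (k + 1 + 1))) (MonoidAlgebra ℂ G))
      (S' : Matrix (Fin (r k)) (Fin (r (k + 1))) (MonoidAlgebra ℂ G)),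
      (∀ i j h, (Φ i j).coeff h ≠ 0 → w (k + 1) i < h • w (k + 1) j) →
      1 - Φ = S * D (k + 1) + D k * S' → betti D (k + 1) = 0) ∧
    ((∀ x y : X, ∃ g : G, x < g • y) → TrivialOnHZero D →
      ∀ K : ℕ, (∀ k, k < K → IsExactAt D k) → (∀ k, k < K → EssentiallyAcyclic D w k) →
        (∀ k, k ≤ K → betti D k = 0) ∧
        ∀ n, n ≤ 2 * K + 1 → (∀ i, n < i → r i = 0) →
          (∀ i, i ≤ n → betti D i = betti D (n - i)) →
          (∀ i, 2 * i ≠ n → betti D i = 0) ∧
          (∀ m, n = 2 * m → betti D m = (-1) ^ m * chi r n) ∧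
          ((∀ i, betti D i = 0) ↔ chi r n = 0)) := by
  classical
  refine ⟨fun k Φ S S' h1 h2 => betti_succ_of hX D hD k (w (k + 1)) Φ S S' h1 h2, ?_⟩
  intro hU hZ K hex hac
  have hlow : ∀ k, k ≤ K → betti D k = 0 := fun k hk =>
    (main hX hU D hD w hZ K hex hac k hk).1
  refine ⟨hlow, ?_⟩
  intro n hnK hn hpd
  have h0 : ∀ i, 2 * i ≠ n → betti D i = 0 := by
    intro i hi
    by_cases h1 : 2 * i < n
    · exact hlow i (by omega)
    · by_cases h2 : i ≤ n
      · rw [hpd i h2]
        exact hlow (n - i) (by omega)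
      · unfold betti
        apply Finset.sum_eq_zero
        intro j _
        have h3 := j.2
        have h4 := hn i (by omega)
        omega
  have he := euler D hD n (hn (n + 1) (by omega))
  rw [altSum_sign, altSum_sign] at he
  have hsign : (-1 : ℝ) ^ n ≠ 0 := pow_ne_zero _ (by norm_num)
  have he2 : ∑ i ∈ Finset.range (n + 1), (-1 : ℝ) ^ i * betti D i = chi r n :=
    mul_left_cancel₀ hsign he
  have hmid : ∀ m, n = 2 * m → betti D m = (-1) ^ m * chi r n := by
    intro m hm
    have h3 : ∑ i ∈ Finset.range (n + 1), (-1 : ℝ) ^ i * betti D i = (-1) ^ m * betti D m := by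
      apply Finset.sum_eq_single m
      · intro i _ hi
        rw [h0 i (by omega), mul_zero]
      · intro h
        exact absurd (Finset.mem_range.2 (by omega)) h
    have h5 : (-1 : ℝ) ^ m * (-1) ^ m = 1 := by
      rw [← mul_pow]
      norm_num
    rw [← he2, h3, ← mul_assoc, h5, one_mul]
  refine ⟨h0, hmid, ?_, ?_⟩
  · intro hall
    rw [← he2]
    apply Finset.sum_eq_zero
    intro i _
    rw [hall i, mul_zero]
  · intro hchi i
    by_cases hi : 2 * i = n
    · rw [hmid i hi.symm, hchi, mul_zero]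
    · exact h0 i hi

end Pool.Agent.Results.MP_394d50_gt.EssentiallyAcyclicHalves
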