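import Pool.Agent.U722.FF.Lb6

/-!
# The Singer conjecture and the Euler characteristic: two-by-two matrices over `ℤ[x_1, ..., x_n]`

Is it true for every closed aspherical `q`-manifold `M` that all the `L²`-Betti numbers of `M` vanish if
and only if `χ(M) = 0`? We show that the answer is yes if `π_1(M)` is isomorphic to a subgroup of
`GL_2(ℤ[x_1, ..., x_n])`, for all `n` and `q ≥ 2` (for `q = 1` it is trivial): for `q ≥ 3` both conditions are always satisfied. This is
proved for all Poincare duality groups `G` of dimension `q` (of type FL).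

Outline. The `L²`-Betti numbers of `G` vanish in all degrees `k ≥ 2`, since `G` acts on a tree with finitely
generated abelian stabilizers of edges and with finitely generated abelian or free stabilizers of vertices
(`Pool.Agent.U722.FF.Str`). By duality they vanish in the degrees `k ≤ q - 2`.
-/

set_option autoImplicit false

namespace Pool.Agent.Results.MP_394d50_gt.PolynomialMatrixGroups

open Pool.Agent.N496.CV

/-- `G` is isomorphic to a subgroup of `GL_2(ℤ[x_1, ..., x_n])` -/
def Lin (n : ℕ) (G : Type) [Group G] : Prop :=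
  ∃ ρ : G →* GL (Fin 2) (MvPolynomial (Fin n) ℤ), Function.Injective ρ

/-- the Euler characteristic: the alternating sum of the ranks in the degrees `≤ p` -/
def euler {G : Type} [Group G] (C : V7N.FreeRes G) (p : ℕ) : ℤ :=
  ∑ i ∈ Finset.range (p + 1), (-1 : ℤ) ^ i * (C.r i : ℤ)

/-- Let `G` be a Poincare duality group of dimension `q ≥ 2` which is isomorphic to a subgroup of
`GL_2(ℤ[x_1, ..., x_n])`, and let `C` be a free resolution of `ℤ` over `ℤG` by finitely generated
modules of length at most `p`. (1) If the Euler characteristic is zero then all the `L²`-Betti numbers of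
`G` vanish (the converse is known). (2) If `q ≥ 3` then all the `L²`-Betti numbers of `G` and the Euler
characteristic are zero. -/
theorem result : ∀ (n q : ℕ) (G : Type) [Group G], Lin n G → Nonempty (PD G q) →
    ∀ (C : V7N.FreeRes G) (p : ℕ), (∀ i, p < i → C.r i = 0) →
      (2 ≤ q → euler C p = 0 → ∀ k : ℕ, HasL2Betti G k 0) ∧
      (3 ≤ q → (∀ k : ℕ, HasL2Betti G k 0) ∧ euler C p = 0) := by
  rintro n q G _ ⟨ρ, hρ⟩ ⟨P⟩ C p hp
  have h2 : ∀ k, 2 ≤ k → VN831.l2Betti G k = 0 := fun k hk => U722.FF.L2SUB n G ρ hρ k hk
  refine ⟨fun hq h k => U722.FF.has0 ?_, fun hq => ?_⟩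
  · have h0 : VN831.l2Betti G 0 = 0 := pd_zero P 0 q (by omega) (h2 q hq)
    have h1 : ∀ k, k ≠ 1 → VN831.l2Betti G k = 0 := by
      intro k hk
      rcases Nat.eq_zero_or_pos k with rfl | h
      · exact h0
      · exact h2 k (by omega)
    have h3 := (U722.FF.euler_one C p hp h1).2.1 h
    by_cases hk : k = 1
    · rw [hk]
      exact h3
    · exact h1 k hk
  · have h := U722.FF.pd_all hq P h2
    exact ⟨fun k => U722.FF.has0 (h k), U722.FF.euler_zero C p hp h⟩

end Pool.Agent.Results.MP_394d50_gt.PolynomialMatrixGroups
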