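import Pool.Agent.U410.ES.Sm

/-!
# `ℓ²`-acyclicity and the Euler characteristic: flag spheres with small join factors, or small links

Let the flag complex `L` of the finite graph `G` be a homology manifold with the homology of the sphere of dimension
`n - 1` (`HSph n G`). The quotients `M = Σ / H` of the Davis complex of the right-angled Coxeter group `W G` by the
torsion-free subgroups `H` of finite index are closed aspherical (homology) `n`-manifolds, with
`χ(M) = [W G : H] χ(W G)` and `b_i^(2)(M) = [W G : H] b_i^(2)(W G)`.

We show that all the `ℓ²`-Betti numbers vanish if and only if `χ(M) = 0`, for all `L` in the class `Sm`: it is enough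
that each join factor of `L` has dimension at most three or has at most `3 e - 1` vertices, where `e - 1` is its
dimension (the least possible number), or that `n` is even and the links of the vertices are of this kind, or that
`n` is odd, the links of the edges are of this kind, and the non-neighbours of some vertex span a tree. Moreover the
order of the zero of the `f`-polynomial at `-1/2` determines the degrees in which the `ℓ²`-homology of the special
subgroups can be nonzero.
-/

set_option autoImplicit false

namespace Pool.Agent.Results.MP_394d50_gt.SmallFactorsEuler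

open Pool.Agent.W907.SG Pool.Agent.W907.SM Pool.Agent.TH652.Above Pool.Agent.Y132.SI
open Pool.Agent.N13.EU (fpoly chiL singer_hered zeros)
open Pool.Agent.U410.ES (Sm hered_of_sm)
open Polynomial (X)

/-- Let `L` be a flag homology sphere of dimension `n - 1` in the class `Sm`. (1) All the `ℓ²`-Betti numbers of
`W = W G` vanish if and only if `χ(W) = 0`; and always in the degrees `≠ n / 2`. (2) For each `k` the following are
equivalent: (a) the `f`-polynomial `∑ X ^ |S|` (over all the simplices `S`) has a zero of order at least `k` at `-1/2`;
(b) `χ(W_lk T) = 0` for all simplices `T` with less than `k` vertices; (c) the `ℓ²`-homology of `W (G.induce A)`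
vanishes in all the degrees `i > (n - k) / 2`, for all sets `A` of vertices. (3) The `i`-th Betti numbers of the
subgroups of finite index of `W`, which contain no conjugate of an element of a finite set `E` (depending on `ε`), are
less than `ε` times the index, for all `i`, if and only if `χ(W) = 0`. -/
theorem result : ∀ (n : ℕ) (V : Type) [Fintype V] [LinearOrder V] (G : SimpleGraph V), HSph n G →
    Sm G n (Finset.univ : Finset V) →
    ((∀ i : ℕ, L2Van G i) ↔ chiW G = 0) ∧ (∀ i : ℕ, 2 * i ≠ n → L2Van G i) ∧
    (∀ k : ℕ, ((1 + 2 * X : Polynomial ℚ) ^ k ∣ fpoly G ↔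
        ∀ T : Finset V, G.IsClique (T : Set V) → T.card < k → chiL G T = 0) ∧
      ((1 + 2 * X : Polynomial ℚ) ^ k ∣ fpoly G ↔
        ∀ (A : Finset V) (i : ℕ), n < 2 * i + k → L2Van (G.induce (A : Set V)) i)) ∧
    (chiW G = 0 ↔ ∀ ε : ℝ, 0 < ε → ∃ E : Finset (W G), (1 : W G) ∉ E ∧
      ∀ H : Subgroup (W G), H.FiniteIndex → (∀ g ∈ E, ∀ x : W G, x * g * x⁻¹ ∉ H) →
        ∀ i : ℕ, (Module.finrank ℝ (HInv G H i) : ℝ) ≤ ε * H.index) := by
  intro n V _ _ G hS hL
  have hH := hered_of_sm hS hL
  have h : ∀ i : ℕ, 2 * i ≠ n → L2Van G i := fun i hi => singer_hered hS hH i hi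
  exact ⟨l2eul V G (n / 2) fun i hi => h i (by omega), h, fun k => zeros hS hH k, chi_iff G n h⟩

end Pool.Agent.Results.MP_394d50_gt.SmallFactorsEuler
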