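import Mathlib

/-!
# The Singer conjecture and the Euler characteristic: sublinear bounds suffice

`SingerTheory` collects the known facts used: the multiplicativity of the Euler characteristic, the Künneth formula for
L²-Betti numbers, Atiyah's theorem (if all L²-Betti numbers vanish then `χ = 0`), and the L²-Betti numbers of the closed
oriented surface `Σ_g` of genus `g ≥ 2`: `b_1 = 2 g - 2` and `b_i = 0` for `i ≠ 1`.

A complexity `c` is any function with `c(M × Σ_g) ≤ A_M g`: for example a constant, the simplicial volume, the minimal number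
of cells of a finite CW complex homotopy equivalent to `M`, or the minimal volume of a Riemannian metric with sectional
curvatures in `[-1,1]`.
-/

set_option autoImplicit false

namespace Pool.Agent.Results.MP_394d50_gt.SublinearBoundsSuffice

universe u

/-- The closed connected aspherical manifolds with their L²-Betti numbers, with the known facts that are used. -/
structure SingerTheory where
  /-- the closed aspherical manifolds -/
  Mfd : Type u
  /-- the dimension -/
  dim : Mfd → ℕ
  /-- the Euler characteristic -/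
  χ : Mfd → ℤ
  /-- the L²-Betti numbers -/
  b : Mfd → ℕ → ℝ
  b_nonneg : ∀ M p, 0 ≤ b M p
  /-- the product of two manifolds -/
  prod : Mfd → Mfd → Mfd
  dim_prod : ∀ M N, dim (prod M N) = dim M + dim N
  χ_prod : ∀ M N, χ (prod M N) = χ M * χ N
  kunneth : ∀ M N n, b (prod M N) n = ∑ i ∈ Finset.range (n + 1), b M i * b N (n - i)
  atiyah : ∀ M, (∀ p, b M p = 0) → χ M = 0
  /-- the closed oriented surface of genus `g + 2` -/
  surf : ℕ → Mfd
  dim_surf : ∀ g, dim (surf g) = 2
  b_surf_one : ∀ g, b (surf g) 1 = 2 * g + 2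
  b_surf : ∀ g i, i ≠ 1 → b (surf g) i = 0

variable (T : SingerTheory.{u})

/-- Q1: a closed aspherical manifold has zero L²-Betti numbers if and only if `χ = 0`. -/
def Singer : Prop := ∀ M : T.Mfd, (∀ p, T.b M p = 0) ↔ T.χ M = 0

/-- Q1 in the dimensions `n ∈ D`. -/
def SingerIn (D : Set ℕ) : Prop := ∀ M : T.Mfd, T.dim M ∈ D → ((∀ p, T.b M p = 0) ↔ T.χ M = 0)

/-- In each dimension `n ∈ D` the L²-Betti numbers of the closed aspherical manifolds with `χ = 0` grow sublinearly in terms
of the complexity `c`. -/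
def Sublinear (c : T.Mfd → ℝ) (D : Set ℕ) : Prop :=
  ∀ n ∈ D, ∀ ε : ℝ, 0 < ε → ∃ K : ℝ, ∀ (M : T.Mfd) (p : ℕ), T.dim M = n → T.χ M = 0 → T.b M p ≤ ε * c M + K

/-- `c(M × Σ_g) ≤ A_M g` (the genus is `g + 2` here). -/
def Complexity (c : T.Mfd → ℝ) : Prop := ∀ M : T.Mfd, ∃ A : ℝ, ∀ g : ℕ, c (T.prod M (T.surf g)) ≤ A * (g + 2)

variable {T}

lemma b_prod_surf (M : T.Mfd) (g k : ℕ) : T.b (T.prod M (T.surf g)) (k + 1) = T.b M k * (2 * g + 2) := by
  rw [T.kunneth]
  rw [Finset.sum_eq_single_of_mem k (by simp)]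
  · rw [Nat.add_sub_cancel_left, T.b_surf_one]
  · intro i hi hne
    rw [Finset.mem_range] at hi
    rw [T.b_surf g (k + 1 - i) (by omega), mul_zero]

/-- crossing with surfaces -/
lemma surfs : ∀ (j k : ℕ) (M : T.Mfd), T.χ M = 0 → 0 < T.b M k →
    ∃ (N : T.Mfd) (l : ℕ), T.dim N = T.dim M + 2 * j ∧ T.χ N = 0 ∧ 0 < T.b N l := by
  intro j
  induction j with
  | zero => exact fun k M h1 h2 => ⟨M, k, rfl, h1, h2⟩
  | succ j ih =>
    intro k M h1 h2
    obtain ⟨N, l, h3, h4, h5⟩ := ih k M h1 h2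
    refine ⟨T.prod N (T.surf 0), l + 1, ?_, ?_, ?_⟩
    · rw [T.dim_prod, T.dim_surf, h3]; ring
    · rw [T.χ_prod, h4, zero_mul]
    · rw [b_prod_surf]
      positivity

/-- a counterexample gives one in an even dimension -/
lemma square (M : T.Mfd) (k : ℕ) (h1 : T.χ M = 0) (h2 : 0 < T.b M k) :
    ∃ (N : T.Mfd) (l : ℕ), Even (T.dim N) ∧ T.χ N = 0 ∧ 0 < T.b N l := by
  refine ⟨T.prod M M, k + k, ?_, ?_, ?_⟩
  · rw [T.dim_prod]; exact ⟨_, rfl⟩
  · rw [T.χ_prod, h1, zero_mul]
  · rw [T.kunneth]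
    have h3 : T.b M k * T.b M (k + k - k) ≤ ∑ i ∈ Finset.range (k + k + 1), T.b M i * T.b M (k + k - i) :=
      Finset.single_le_sum (f := fun i => T.b M i * T.b M (k + k - i))
        (fun i _ => mul_nonneg (T.b_nonneg _ _) (T.b_nonneg _ _)) (Finset.mem_range.2 (by omega))
    rw [Nat.add_sub_cancel] at h3
    exact lt_of_lt_of_le (by positivity) h3

variable (T)

/-- Let `D` be an infinite set of even numbers and `c` a complexity. The following are equivalent: (1) Q1; (2) Q1 in the
dimensions `n ∈ D`; (3) in each dimension `n ∈ D` the L²-Betti numbers of the closed aspherical manifolds with `χ = 0` are at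
most `ε c + K`, for all `ε > 0` with `K` depending on `n` and `ε`. -/
theorem result (D : Set ℕ) (hD : D.Infinite) (hE : ∀ n ∈ D, Even n) (c : T.Mfd → ℝ) (hc : Complexity T c) (hc0 : ∀ M, 0 ≤ c M) :
    List.TFAE [Singer T, SingerIn T D, Sublinear T c D] := by
  tfae_have 1 → 2 := fun h M _ => h M
  tfae_have 2 → 3 := by
    intro h n hn ε hε
    refine ⟨0, fun M p hM hχ => ?_⟩
    rw [(h M (by rw [hM]; exact hn)).2 hχ p, add_zero]
    exact mul_nonneg hε.le (hc0 M)
  tfae_have 3 → 1 := by
    intro h M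
    refine ⟨T.atiyah M, fun hχ k => ?_⟩
    by_contra hne
    have hpos : 0 < T.b M k := lt_of_le_of_ne (T.b_nonneg M k) (Ne.symm hne)
    obtain ⟨N, l, h1, h2, h3⟩ := square M k hχ hpos
    obtain ⟨n, hn, hnN⟩ := hD.exists_gt (T.dim N)
    obtain ⟨P, q, h4, h5, h6⟩ := surfs ((n - T.dim N) / 2 - 1) l N h2 h3
    have hdimP : T.dim P + 2 = n := by
      obtain ⟨r, hr⟩ := hE n hn
      obtain ⟨s, hs⟩ := h1
      omega
    obtain ⟨A, hA⟩ := hc P
    set A' : ℝ := max A 1 with hA'
    have hA'0 : 0 < A' := lt_of_lt_of_le one_pos (le_max_right _ _)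
    obtain ⟨K, hK⟩ := h n hn (T.b P q / (2 * A')) (by positivity)
    have hbd : ∀ g : ℕ, T.b P q * (2 * g + 2) ≤ T.b P q / (2 * A') * (A' * (g + 2)) + K := by
      intro g
      have h7 := hK (T.prod P (T.surf g)) (q + 1) (by rw [T.dim_prod, T.dim_surf, hdimP]) (by rw [T.χ_prod, h5, zero_mul])
      rw [b_prod_surf] at h7
      refine h7.trans ?_
      have h8 : c (T.prod P (T.surf g)) ≤ A' * (g + 2) :=
        (hA g).trans (mul_le_mul_of_nonneg_right (le_max_left _ _) (by positivity))
      have h9 := mul_le_mul_of_nonneg_left h8 (by positivity : 0 ≤ T.b P q / (2 * A'))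
      linarith
    obtain ⟨g, hg⟩ := exists_nat_gt (K / T.b P q)
    have h10 := hbd g
    have h11 : T.b P q / (2 * A') * (A' * (g + 2)) = T.b P q * (g + 2) / 2 := by
      field_simp
    rw [h11] at h10
    rw [div_lt_iff₀ h6] at hg
    nlinarith
  tfae_finish

end Pool.Agent.Results.MP_394d50_gt.SublinearBoundsSuffice
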